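import Pool.Agent.Helper16.LD.SV.Stmt

open Set

namespace Pool.AF

open Pool.SV

/-- `X` is not the whole space and `dim V ≤ 4`, where `V` is the space of all `v` such that `X` is
invariant under the translations by the multiples of `v`. -/
def LinealityAtMostFour {m : ℕ} (X : Set (EuclideanSpace ℝ (Fin m))) : Prop :=
  X ≠ Set.univ ∧ ∃ V : Submodule ℝ (EuclideanSpace ℝ (Fin m)),
    (∀ v, v ∈ V ↔ ∀ x ∈ X, ∀ t : ℝ, x + t • v ∈ X) ∧ Module.finrank ℝ V ≤ 4

end Pool.AF
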